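import Pool.Agent.W406.PX.Stmts

/-!
# PX-FORCEA: assembly of the forcing (`TaskForceA`)
-/

set_option autoImplicit false

open Finset MeasureTheory

namespace Pool.Agent.W573.PX
open Pool.Agent.W406.PX
open Pool.Agent.H96R3.BC (vv)

lemma vv_mono (Q j₀ : ℕ) : Monotone (vv Q j₀) := by
  intro p n h
  unfold vv
  apply Real.rpow_le_rpow (by positivity)
  · gcongr
  · positivity

lemma vv_sq (q j₀ n : ℕ) : vv q (j₀ ^ 2) n = vv (2 * q) j₀ n ^ 2 := by
  unfold vv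
  have h1 : ((j₀ ^ 2 : ℕ) : ℝ) ^ (2 * q) = (j₀ : ℝ) ^ (2 * (2 * q)) := by
    push_cast
    rw [← pow_mul]
  rw [h1]
  set X := (n : ℝ) / (j₀ : ℝ) ^ (2 * (2 * q)) with hX
  have hX0 : 0 ≤ X := by positivity
  have h2 : (X ^ (1 / (4 * ((2 * q : ℕ) : ℝ)))) ^ 2 = (X ^ (1 / (4 * ((2 * q : ℕ) : ℝ)))) ^ ((2 : ℕ) : ℝ) :=
    (Real.rpow_natCast _ _).symm
  rw [h2, ← Real.rpow_mul hX0]
  congr 1
  push_cast
  rcases Nat.eq_zero_or_pos q with h | h
  · subst h; simp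
  · have : (q : ℝ) ≠ 0 := by positivity
    field_simp

lemma gw_nonneg (n : ℕ) : 0 ≤ gw n := by
  unfold gw; split_ifs <;> positivity

lemma Gs_nonneg (a b : ℕ) : 0 ≤ Gs a b := Finset.sum_nonneg fun n _ => gw_nonneg n

/-- initial segments -/
lemma initial (v : ℕ → ℝ) (hv : Monotone v) (u : ℝ) (A B : ℕ) (hAB : A ≤ B) :
    ∃ x, A ≤ x ∧ x ≤ B ∧ ∀ f : ℕ → ℝ,
      (∑ n ∈ Ioc A B, if v n ≤ u then f n else 0) = ∑ n ∈ Ioc A x, f n := by
  induction B, hAB using Nat.le_induction with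
  | base => exact ⟨A, le_rfl, le_rfl, fun f => by simp⟩
  | succ B hB ih =>
    by_cases h : v (B + 1) ≤ u
    · refine ⟨B + 1, by omega, le_rfl, fun f => Finset.sum_congr rfl fun n hn => ?_⟩
      rw [if_pos ((hv (Finset.mem_Ioc.1 hn).2).trans h)]
    · obtain ⟨x, h1, h2, h3⟩ := ih
      refine ⟨x, h1, by omega, fun f => ?_⟩
      rw [Finset.sum_Ioc_succ_top hB, if_neg h, add_zero]
      exact h3 f

/-- the partial sums as a function of the node -/
noncomputable def Ps (v : ℕ → ℝ) (A B : ℕ) (ψ : ℕ → ℝ) (u : ℝ) : ℝ :=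
  ∑ n ∈ Ioc A B, if v n ≤ u then ψ n else 0

lemma ps_eq (v : ℕ → ℝ) (A B : ℕ) (ψ : ℕ → ℝ) : Ps v A B ψ = fun u =>
    ∑ n ∈ Ioc A B, (Set.Ici (v n)).indicator (fun _ => ψ n) u := by
  funext u
  unfold Ps
  refine Finset.sum_congr rfl fun n _ => ?_
  rw [Set.indicator_apply]
  simp only [Set.mem_Ici]

lemma ps_int (v : ℕ → ℝ) (A B : ℕ) (ψ : ℕ → ℝ) (a b : ℝ) :
    IntervalIntegrable (Ps v A B ψ) volume a b := by
  rw [ps_eq]
  have e : (fun u => ∑ n ∈ Ioc A B, (Set.Ici (v n)).indicator (fun _ => ψ n) u)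
      = ∑ n ∈ Ioc A B, fun u => (Set.Ici (v n)).indicator (fun _ => ψ n) u := by
    funext u
    rw [Finset.sum_apply]
  rw [e]
  exact IntervalIntegrable.sum (Ioc A B) fun n _ => by
      have h : IntervalIntegrable (fun _ : ℝ => ψ n) volume a b := intervalIntegrable_const
      exact ⟨h.1.indicator measurableSet_Ici, h.2.indicator measurableSet_Ici⟩

lemma mom_cell (v : ℕ → ℝ) (hv : Monotone v) (A B : ℕ) (ψ : ℕ → ℝ)
    (h0 : ∑ n ∈ Ioc A B, ψ n = 0) (R : Polynomial ℝ) :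
    ∑ n ∈ Ioc A B, ψ n * R.eval (v n)
      = - ∫ u in (v A)..(v B), Ps v A B ψ u * R.derivative.eval u := by
  have hc : Continuous fun u => R.derivative.eval u := R.derivative.continuous
  have e1 : (fun u => Ps v A B ψ u * R.derivative.eval u)
      = fun u => ∑ n ∈ Ioc A B, (Set.Ici (v n)).indicator (fun u => ψ n * R.derivative.eval u) u := by
    funext u
    rw [Ps, Finset.sum_mul]
    refine Finset.sum_congr rfl fun n _ => ?_
    rw [Set.indicator_apply]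
    simp only [Set.mem_Ici]
    split_ifs <;> simp
  have hi : ∀ n, ∀ a b : ℝ, IntervalIntegrable
      (fun u => (Set.Ici (v n)).indicator (fun u => ψ n * R.derivative.eval u) u) volume a b := by
    intro n a b
    have h : IntervalIntegrable (fun u : ℝ => ψ n * R.derivative.eval u) volume a b :=
      (continuous_const.mul hc).intervalIntegrable _ _
    exact ⟨h.1.indicator measurableSet_Ici, h.2.indicator measurableSet_Ici⟩
  rw [e1, intervalIntegral.integral_finsetSum (fun n _ => hi n _ _), ← Finset.sum_neg_distrib]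
  have e2 : ∀ n ∈ Ioc A B, -∫ u in (v A)..(v B),
      (Set.Ici (v n)).indicator (fun u => ψ n * R.derivative.eval u) u
        = ψ n * R.eval (v n) - ψ n * R.eval (v B) := by
    intro n hn
    have hn1 := hv (Finset.mem_Ioc.1 hn).1.le
    have hn2 := hv (Finset.mem_Ioc.1 hn).2
    rw [← intervalIntegral.integral_add_adjacent_intervals (hi n _ (v n)) (hi n (v n) _)]
    have z1 : ∫ u in (v A)..(v n),
        (Set.Ici (v n)).indicator (fun u => ψ n * R.derivative.eval u) u = 0 := by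
      apply intervalIntegral.integral_zero_ae
      have : ∀ᵐ x : ℝ, x ≠ v n := by
        rw [ae_iff]; simp
      filter_upwards [this] with x hx hx2
      rw [Set.uIoc_of_le hn1] at hx2
      rw [Set.indicator_of_notMem]
      simp only [Set.mem_Ici, not_le]
      exact lt_of_le_of_ne hx2.2 hx
    have z2 : ∫ u in (v n)..(v B),
        (Set.Ici (v n)).indicator (fun u => ψ n * R.derivative.eval u) u
          = ∫ u in (v n)..(v B), ψ n * R.derivative.eval u := by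
      apply intervalIntegral.integral_congr
      intro x hx
      rw [Set.uIcc_of_le hn2] at hx
      simp only
      rw [Set.indicator_of_mem]
      exact hx.1
    rw [z1, z2, intervalIntegral.integral_const_mul,
      intervalIntegral.integral_eq_sub_of_hasDerivAt (f := fun u => R.eval u)
        (fun x _ => R.hasDerivAt x) (hc.intervalIntegrable _ _)]
    ring
  rw [Finset.sum_congr rfl e2, Finset.sum_sub_distrib, ← Finset.sum_mul, h0]
  simp

/-- splitting of a group into cells -/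
lemma sum_cells (b : ℕ → ℕ) (J : ℕ) (hb : ∀ i, b (J + i) ≤ b (J + i + 1)) (f : ℕ → ℝ) (m : ℕ) :
    ∑ n ∈ Ioc (b J) (b (J + m)), f n
      = ∑ i ∈ range m, ∑ n ∈ Ioc (b (J + i)) (b (J + i + 1)), f n := by
  have hm : ∀ i, b J ≤ b (J + i) := by
    intro i
    induction i with
    | zero => simp
    | succ i ih => exact ih.trans (hb i)
  induction m with
  | zero => simp
  | succ m ih =>
    rw [Finset.sum_range_succ, ← ih, Finset.sum_Ioc_consecutive f (hm m) (hb m)]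
    rfl

section cell
variable {v : ℕ → ℝ} (hv : Monotone v) {A B : ℕ} (hAB : A ≤ B) {ψ : ℕ → ℝ} {c₁ : ℝ} (hc : 0 < c₁)
  (hψ : ∀ n, |ψ n| ≤ gw n / 2)
  (hlow : ∀ x : ℕ, A ≤ x → x ≤ B → c₁ * min (Gs A x) (Gs x B) ≤ ∑ n ∈ Ioc A x, ψ n)

include hc in
lemma part_nonneg (x : ℕ) (h1 : c₁ * min (Gs A x) (Gs x B) ≤ ∑ n ∈ Ioc A x, ψ n) :
    0 ≤ ∑ n ∈ Ioc A x, ψ n :=
  le_trans (mul_nonneg hc.le (le_min (Gs_nonneg _ _) (Gs_nonneg _ _))) h1

include hv hAB hc hlow in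
lemma ps_nonneg (u : ℝ) : 0 ≤ Ps v A B ψ u := by
  obtain ⟨x, h1, h2, h3⟩ := initial v hv u A B hAB
  unfold Ps
  rw [h3]
  exact part_nonneg hc x (hlow x h1 h2)

include hv hAB hψ in
lemma ps_le (u : ℝ) : |Ps v A B ψ u| ≤ Gs A B := by
  obtain ⟨x, h1, h2, h3⟩ := initial v hv u A B hAB
  unfold Ps
  rw [h3]
  calc |∑ n ∈ Ioc A x, ψ n| ≤ ∑ n ∈ Ioc A x, |ψ n| := Finset.abs_sum_le_sum_abs _ _
    _ ≤ ∑ n ∈ Ioc A x, gw n := Finset.sum_le_sum fun n _ =>
        (hψ n).trans (by have := gw_nonneg n; linarith)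
    _ ≤ ∑ n ∈ Ioc A B, gw n := Finset.sum_le_sum_of_subset_of_nonneg
        (Finset.Ioc_subset_Ioc_right h2) fun n _ _ => gw_nonneg n

omit ψ in
lemma ps_at (ψ : ℕ → ℝ) (u : ℝ) (x : ℕ) (h1 : A ≤ x) (h2 : x ≤ B) (h : ∀ n : ℕ, v n ≤ u ↔ n ≤ x) :
    Ps v A B ψ u = ∑ n ∈ Ioc A x, ψ n := by
  unfold Ps
  rw [← Finset.sum_filter]
  congr 1
  ext n
  simp only [Finset.mem_filter, Finset.mem_Ioc, h n]
  omega

end cell

/-- one group of `m` cells -/
theorem group (q : ℕ) {η c₁ C c₀ : ℝ} (hη : 0 < η) (hc₁ : 0 < c₁) (hC : 1 ≤ C) (m : ℕ)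
    (hN : ∀ (h M : ℝ) (a : ℕ → ℝ) (Ψ : ℕ → ℝ → ℝ), 0 < h → 0 < M →
      (∀ i < m, h ≤ a (i + 1) - a i ∧ a (i + 1) - a i ≤ 2 * h) →
      (∀ i < m, IntegrableOn (Ψ i) (Set.Icc (a i) (a (i + 1)))) →
      (∀ i < m, ∀ u, 0 ≤ Ψ i u) →
      (∀ i < m, ∫ u in (a i)..(a (i + 1)), Ψ i u ≤ M) →
      (∀ i < m, (c₁ * η ^ 2 / (512 * C * 2 ^ (2 * q - 1))) * M ≤
        ∫ u in (a i + h / 4)..(a (i + 1) - h / 4), Ψ i u) →
      ∃ c : ℕ → ℝ, (∀ i < m, c₀ ≤ (-1) ^ i * c i ∧ (-1) ^ i * c i ≤ 1) ∧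
        ∀ P : Polynomial ℝ, P.natDegree + 2 ≤ m →
          ∑ i ∈ range m, c i * ∫ u in (a i)..(a (i + 1)), Ψ i u * P.eval u = 0)
    (v : ℕ → ℝ) (b : ℕ → ℕ) (J : ℕ) (hJ : m + 3 ≤ J) (ψ : ℕ → ℕ → ℝ)
    (hup : ∀ j, J ≤ j → j < J + m →
      η * Gs (b j) (b (j + 1)) ≤ C * (j : ℝ) ^ (2 * q - 1) / (Real.log j) ^ 3)
    (hlo : ∀ j, J ≤ j → j < J + m → ∀ x : ℕ, (b j : ℝ) + ((b (j + 1) : ℝ) - b j) / 16 ≤ x →
      (x : ℝ) ≤ (b (j + 1) : ℝ) - ((b (j + 1) : ℝ) - b j) / 16 →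
      c₁ * (η / 16 * (j : ℝ) ^ (2 * q - 1) / (Real.log j) ^ 3) ≤ ∑ n ∈ Ioc (b j) x, ψ j n)
    (hbm : ∀ j, J ≤ j → j < J + m → b j < b (j + 1))
    (hps0 : ∀ i < m, ∀ u, 0 ≤ Ps v (b (J + i)) (b (J + i + 1)) (ψ (J + i)) u)
    (hps1 : ∀ i < m, ∀ u, |Ps v (b (J + i)) (b (J + i + 1)) (ψ (J + i)) u|
      ≤ Gs (b (J + i)) (b (J + i + 1)))
    (h : ℝ) (hh : 0 < h)
    (hgeo : ∀ i < m, h ≤ v (b (J + i + 1)) - v (b (J + i)) ∧
      v (b (J + i + 1)) - v (b (J + i)) ≤ 2 * h ∧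
      ∀ u : ℝ, v (b (J + i)) + h / 4 ≤ u → u ≤ v (b (J + i + 1)) - h / 4 →
      ∃ x : ℕ, (b (J + i) : ℝ) + ((b (J + i + 1) : ℝ) - b (J + i)) / 16 ≤ x ∧
        (x : ℝ) ≤ (b (J + i + 1) : ℝ) - ((b (J + i + 1) : ℝ) - b (J + i)) / 16 ∧
        ∀ n : ℕ, v n ≤ u ↔ n ≤ x) :
    ∃ c : ℕ → ℝ, (∀ i < m, c₀ ≤ (-1) ^ i * c i ∧ (-1) ^ i * c i ≤ 1) ∧
      ∀ P : Polynomial ℝ, P.natDegree + 2 ≤ m →
        ∑ i ∈ range m, c i * ∫ u in (v (b (J + i)))..(v (b (J + i + 1))),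
          Ps v (b (J + i)) (b (J + i + 1)) (ψ (J + i)) u * P.eval u = 0 := by
  have hC0 : 0 < C := by linarith
  have hJ3 : (3 : ℝ) ≤ J := by exact_mod_cast (by omega : 3 ≤ J)
  have hJ0 : (0 : ℝ) < J := by linarith
  have hlogJ : 0 < Real.log J := Real.log_pos (by linarith)
  have hlog2 : Real.log 2 ≤ Real.log J := Real.log_le_log (by norm_num) (by linarith)
  set UB : ℝ := C * (2 * (J : ℝ)) ^ (2 * q - 1) / (Real.log J) ^ 3 / η with hUB
  set LB : ℝ := c₁ * (η / 16 * (J : ℝ) ^ (2 * q - 1) / (2 * Real.log J) ^ 3) with hLB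
  have hUB0 : 0 < UB := by positivity
  have hLB0 : 0 < LB := by positivity
  have hj : ∀ i < m, ((J + i : ℕ) : ℝ) ≤ 2 * J ∧ (J : ℝ) ≤ ((J + i : ℕ) : ℝ) := by
    intro i hi
    constructor
    · exact_mod_cast (by omega : J + i ≤ 2 * J)
    · exact_mod_cast (by omega : J ≤ J + i)
  have hGu : ∀ i < m, Gs (b (J + i)) (b (J + i + 1)) ≤ UB := by
    intro i hi
    have h1 := hup (J + i) (by omega) (by omega)
    obtain ⟨h2, h3⟩ := hj i hi
    rw [hUB, le_div_iff₀ hη, mul_comm]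
    refine h1.trans ?_
    have h4 : Real.log J ≤ Real.log ((J + i : ℕ) : ℝ) := Real.log_le_log hJ0 h3
    gcongr
  have hlow : ∀ i < m, LB ≤ c₁ * (η / 16 * ((J + i : ℕ) : ℝ) ^ (2 * q - 1) /
      (Real.log ((J + i : ℕ) : ℝ)) ^ 3) := by
    intro i hi
    obtain ⟨h2, h3⟩ := hj i hi
    have h4 : Real.log ((J + i : ℕ) : ℝ) ≤ 2 * Real.log J := by
      have : Real.log ((J + i : ℕ) : ℝ) ≤ Real.log (2 * J) :=
        Real.log_le_log (by linarith) h2
      rw [Real.log_mul (by norm_num) hJ0.ne'] at this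
      linarith
    have h5 : 0 < Real.log ((J + i : ℕ) : ℝ) := Real.log_pos (by linarith)
    rw [hLB]
    gcongr
  have key := hN h (2 * h * UB) (fun i => v (b (J + i)))
    (fun i => Ps v (b (J + i)) (b (J + i + 1)) (ψ (J + i))) hh (by positivity)
    (fun i hi => ⟨(hgeo i hi).1, (hgeo i hi).2.1⟩)
    (fun i hi => by
      have h1 : v (b (J + i)) ≤ v (b (J + i + 1)) := by have := (hgeo i hi).1; linarith
      have := (intervalIntegrable_iff_integrableOn_Icc_of_le h1).1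
        (ps_int v (b (J + i)) (b (J + i + 1)) (ψ (J + i)) (v (b (J + i))) (v (b (J + i + 1))))
      exact this)
    hps0
    (fun i hi => by
      have h1 : v (b (J + i)) ≤ v (b (J + i + 1)) := by have := (hgeo i hi).1; linarith
      have h2 := intervalIntegral.norm_integral_le_of_norm_le_const
        (a := v (b (J + i))) (b := v (b (J + i + 1)))
        (f := Ps v (b (J + i)) (b (J + i + 1)) (ψ (J + i))) (C := UB)
        (fun u _ => (hps1 i hi u).trans (hGu i hi))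
      have h3 : |v (b (J + i + 1)) - v (b (J + i))| ≤ 2 * h := by
        rw [abs_of_nonneg (by linarith)]; exact (hgeo i hi).2.1
      calc _ ≤ _ := (Real.le_norm_self _).trans h2
        _ ≤ UB * (2 * h) := by gcongr
        _ = _ := by ring)
    (fun i hi => by
      obtain ⟨g1, g2, g3⟩ := hgeo i hi
      have h1 : v (b (J + i)) + h / 4 ≤ v (b (J + i + 1)) - h / 4 := by linarith
      have h2 : ∀ u ∈ Set.Icc (v (b (J + i)) + h / 4) (v (b (J + i + 1)) - h / 4),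
          LB ≤ Ps v (b (J + i)) (b (J + i + 1)) (ψ (J + i)) u := by
        intro u hu
        obtain ⟨x, x1, x2, x3⟩ := g3 u hu.1 hu.2
        have hbi : (b (J + i) : ℝ) ≤ b (J + i + 1) := by
          exact_mod_cast (hbm (J + i) (by omega) (by omega)).le
        rw [ps_at (ψ (J + i)) u x (by
            have : (b (J + i) : ℝ) ≤ x := by linarith
            exact_mod_cast this) (by
            have : (x : ℝ) ≤ b (J + i + 1) := by linarith
            exact_mod_cast this) x3]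
        exact (hlow i hi).trans (hlo (J + i) (by omega) (by omega) x x1 x2)
      have h3 := intervalIntegral.integral_mono_on h1 (f := fun _ => LB)
        (g := Ps v (b (J + i)) (b (J + i + 1)) (ψ (J + i))) intervalIntegrable_const
        (ps_int v (b (J + i)) (b (J + i + 1)) (ψ (J + i)) _ _) h2
      rw [intervalIntegral.integral_const, smul_eq_mul] at h3
      refine le_trans ?_ h3
      have h4 : h / 2 ≤ v (b (J + i + 1)) - h / 4 - (v (b (J + i)) + h / 4) := by linarith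
      have h5 : h / 2 * LB ≤ (v (b (J + i + 1)) - h / 4 - (v (b (J + i)) + h / 4)) * LB := by
        gcongr
      refine le_trans (le_of_eq ?_) h5
      rw [hLB, hUB, mul_pow]
      have e2 : (2 : ℝ) ^ (2 * q - 1) ≠ 0 := by positivity
      generalize (2 : ℝ) ^ (2 * q - 1) = t at *
      field_simp
      ring)
  obtain ⟨c, k1, k2⟩ := key
  exact ⟨c, k1, k2⟩

lemma cell_unique (b : ℕ → ℕ) (j₁ : ℕ) (hb : ∀ j, j₁ ≤ j → b j < b (j + 1)) {j k n : ℕ}
    (hj : j₁ ≤ j) (hk : j₁ ≤ k) (h1 : n ∈ Ioc (b j) (b (j + 1))) (h2 : n ∈ Ioc (b k) (b (k + 1))) :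
    j = k := by
  have hmono : ∀ d j, j₁ ≤ j → b j ≤ b (j + d) := by
    intro d
    induction d with
    | zero => intro j _; simp
    | succ d ih =>
      intro j hj
      have := ih j hj
      have := hb (j + d) (by omega)
      show b j ≤ b (j + d + 1)
      omega
  rw [Finset.mem_Ioc] at h1 h2
  rcases lt_trichotomy j k with h | h | h
  · have := hmono (k - (j + 1)) (j + 1) (by omega)
    rw [show j + 1 + (k - (j + 1)) = k by omega] at this
    omega
  · exact h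
  · have := hmono (j - (k + 1)) (k + 1) (by omega)
    rw [show k + 1 + (j - (k + 1)) = j by omega] at this
    omega

theorem task : TaskForceA := by
  intro hPr hNull hCF hG hG2
  obtain ⟨q1, h1⟩ := id hPr
  obtain ⟨q2, h2⟩ := hCF hPr
  obtain ⟨q3, h3⟩ := hG
  obtain ⟨q4, h4⟩ := hG2
  refine ⟨q1 + q2 + q3 + q4 + 1, fun q hq => ?_⟩
  obtain ⟨η, hη, hP⟩ := h1 q (by omega)
  obtain ⟨c₁, hc₁, J2, hC⟩ := h2 q (by omega)
  obtain ⟨C, hC1, J3, hG⟩ := h3 q (by omega) (2 * q) (Or.inr rfl) 1 le_rfl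
  obtain ⟨J4, hG2⟩ := h4 q (by omega) (8 * q + 11) (by omega)
  obtain ⟨J1, hP⟩ := hP (1 / 16) (by norm_num)
  have hC0 : 0 < C := by linarith
  obtain ⟨c₀, hc₀, hN⟩ := hNull (8 * q + 11) (by omega) (c₁ * η ^ 2 / (512 * C * 2 ^ (2 * q - 1)))
    (by positivity)
  refine ⟨8 * q + 11, by omega, c₀ * c₁, by positivity, J1 + J2 + J3 + J4 + 8 * q + 14,
    fun j₀ hj₀ b hb => ?_⟩
  have hj₁ : j₀ ≤ j₀ ^ 2 := Nat.le_self_pow (by norm_num) _
  set j₁ := j₀ ^ 2 with hj₁def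
  have hgeo := (hG j₁ j₀ (by omega) (by rw [hj₁def, ← pow_mul]) b hb).2.2
  have hbm : ∀ j, j₁ ≤ j → b j < b (j + 1) := fun j hj => (hgeo j hj).1
  have hdiff : ∀ j, j₁ ≤ j → (b (j + 1) : ℝ) - b j ≤ C * (j : ℝ) ^ (2 * q - 1) ∧
      (j : ℝ) ^ (2 * q - 1) ≤ (b (j + 1) : ℝ) - b j := fun j hj => by
    have := hgeo j hj
    exact ⟨this.2.2.2.2.2.2.1, this.2.2.2.2.2.2.2.1⟩
  have hv : Monotone (vv (2 * q) j₀) := vv_mono _ _
  -- sizes of the masses
  have hb3 : ∀ j, j₁ ≤ j → b (j + 1) ≤ (j + 3) ^ (2 * q) := by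
    intro j hj
    have h5 := (hb (j + 1) (by omega)).2
    have h6 : (j + 1) ^ (2 * q) ≤ (j + 3) ^ (2 * q) := Nat.pow_le_pow_left (by omega) _
    have h7 : (j + 1 + 1) ^ (2 * q) ≤ (j + 3) ^ (2 * q) := Nat.pow_le_pow_left (by omega) _
    omega
  have hup : ∀ j, j₁ ≤ j →
      η * Gs (b j) (b (j + 1)) ≤ C * (j : ℝ) ^ (2 * q - 1) / (Real.log j) ^ 3 := by
    intro j hj
    have hjp : (3 : ℝ) ≤ j := by exact_mod_cast (by omega : 3 ≤ j)
    have hlog : 0 < Real.log j := Real.log_pos (by linarith)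
    have hp : (0 : ℝ) < (j : ℝ) ^ (2 * q - 1) := by positivity
    obtain ⟨d1, d2⟩ := hdiff j hj
    have := (hP j (by omega) (b j) (b (j + 1)) (hb j hj).1 (hb3 j hj) (by linarith)).2.1
    refine this.trans ?_
    gcongr
  have hlo : ∀ j, j₁ ≤ j → ∀ x : ℕ, (b j : ℝ) + ((b (j + 1) : ℝ) - b j) / 16 ≤ x →
      (x : ℝ) ≤ (b (j + 1) : ℝ) - ((b (j + 1) : ℝ) - b j) / 16 →
      (η / 16 * (j : ℝ) ^ (2 * q - 1) / (Real.log j) ^ 3) ≤ min (Gs (b j) x) (Gs x (b (j + 1))) := by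
    intro j hj x x1 x2
    have hjp : (3 : ℝ) ≤ j := by exact_mod_cast (by omega : 3 ≤ j)
    have hlog : 0 < Real.log j := Real.log_pos (by linarith)
    have hp : (0 : ℝ) < (j : ℝ) ^ (2 * q - 1) := by positivity
    obtain ⟨d1, d2⟩ := hdiff j hj
    have y1 : (b j : ℝ) ≤ x := by linarith
    have y2 : (x : ℝ) ≤ b (j + 1) := by linarith
    have y1' : b j ≤ x := by exact_mod_cast y1
    have y2' : x ≤ b (j + 1) := by exact_mod_cast y2
    refine le_min ?_ ?_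
    · refine le_trans ?_ (hP j (by omega) (b j) x (hb j hj).1 (y2'.trans (hb3 j hj)) (by linarith)).1
      refine div_le_div_of_nonneg_right ?_ (by positivity)
      nlinarith [mul_le_mul_of_nonneg_left (show (j : ℝ) ^ (2 * q - 1) / 16 ≤ (x : ℝ) - b j by linarith) hη.le]
    · refine le_trans ?_ (hP j (by omega) x (b (j + 1)) ((hb j hj).1.trans y1') (hb3 j hj)
        (by linarith)).1
      refine div_le_div_of_nonneg_right ?_ (by positivity)
      nlinarith [mul_le_mul_of_nonneg_left (show (j : ℝ) ^ (2 * q - 1) / 16 ≤ (b (j + 1) : ℝ) - x by linarith) hη.le]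
  -- the forcing of the cells
  have hψ : ∀ j, ∃ ψ : ℕ → ℝ, j₁ ≤ j → (∀ n, |ψ n| ≤ gw n / 2) ∧
      (∀ n, n ∉ Ioc (b j) (b (j + 1)) → ψ n = 0) ∧ ∑ n ∈ Ioc (b j) (b (j + 1)), ψ n = 0 ∧
      ∀ x : ℕ, b j ≤ x → x ≤ b (j + 1) →
        c₁ * min (Gs (b j) x) (Gs x (b (j + 1))) ≤ ∑ n ∈ Ioc (b j) x, ψ n := by
    intro j
    by_cases hj : j₁ ≤ j
    · obtain ⟨ψ, hψ⟩ := hC j (by omega) (b j) (b (j + 1)) (hb j hj).1 (hb j hj).2
        (hb (j + 1) (by omega)).1 (hb (j + 1) (by omega)).2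
      exact ⟨ψ, fun _ => hψ⟩
    · exact ⟨0, fun h => absurd h hj⟩
  choose ψ hψ using hψ
  -- the coefficients of the groups
  have hgr : ∀ g, ∃ c : ℕ → ℝ, (∀ i < 8 * q + 11, c₀ ≤ (-1) ^ i * c i ∧ (-1) ^ i * c i ≤ 1) ∧
      ∀ P : Polynomial ℝ, P.natDegree + 2 ≤ 8 * q + 11 →
        ∑ i ∈ range (8 * q + 11), c i *
          ∫ u in (vv (2 * q) j₀ (b (j₁ + (8 * q + 11) * g + i)))..(vv (2 * q) j₀
            (b (j₁ + (8 * q + 11) * g + i + 1))),
          Ps (vv (2 * q) j₀) (b (j₁ + (8 * q + 11) * g + i)) (b (j₁ + (8 * q + 11) * g + i + 1))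
            (ψ (j₁ + (8 * q + 11) * g + i)) u * P.eval u = 0 := by
    intro g
    have hJ : j₁ ≤ j₁ + (8 * q + 11) * g := Nat.le_add_right _ _
    generalize j₁ + (8 * q + 11) * g = J at *
    obtain ⟨h, hh, hge⟩ := hG2 j₀ (by omega) b hb J hJ
    refine group q hη hc₁ hC1 (8 * q + 11) hN (vv (2 * q) j₀) b J (by omega) ψ
      (fun j hj _ => hup j (by omega)) ?_ (fun j hj _ => hbm j (by omega)) ?_ ?_ h hh hge
    · intro j hj _ x x1 x2
      have hj' : j₁ ≤ j := by omega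
      have hjp : (3 : ℝ) ≤ j := by exact_mod_cast (by omega : 3 ≤ j)
      have hp : (0 : ℝ) < (j : ℝ) ^ (2 * q - 1) := by positivity
      obtain ⟨d1, d2⟩ := hdiff j hj'
      have y1 : (b j : ℝ) ≤ x := by linarith
      have y2 : (x : ℝ) ≤ b (j + 1) := by linarith
      refine le_trans ?_ ((hψ j hj').2.2.2 x (by exact_mod_cast y1) (by exact_mod_cast y2))
      exact mul_le_mul_of_nonneg_left (hlo j hj' x x1 x2) hc₁.le
    · intro i hi u
      obtain ⟨p1, p2, p3, p4⟩ := hψ (J + i) (by omega)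
      exact ps_nonneg hv (hbm (J + i) (by omega)).le hc₁ p4 u
    · intro i hi u
      obtain ⟨p1, p2, p3, p4⟩ := hψ (J + i) (by omega)
      exact ps_le hv (hbm (J + i) (by omega)).le p1 u
  choose c hc1 hc2 using hgr
  -- the coefficient of the cell `j`
  set κ : ℕ → ℝ := fun j => c ((j - j₁) / (8 * q + 11)) ((j - j₁) % (8 * q + 11)) with hκ
  have hκ1 : ∀ j, ∃ e : ℝ, (e = 1 ∨ e = -1) ∧ c₀ ≤ e * κ j ∧ e * κ j ≤ 1 := by
    intro j
    have hlt : (j - j₁) % (8 * q + 11) < 8 * q + 11 := Nat.mod_lt _ (by omega)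
    have h5 := hc1 ((j - j₁) / (8 * q + 11)) _ hlt
    refine ⟨(-1) ^ ((j - j₁) % (8 * q + 11)), neg_one_pow_eq_or ℝ _, h5.1, h5.2⟩
  have hκ2 : ∀ j, |κ j| ≤ 1 := by
    intro j
    obtain ⟨e, he, h5, h6⟩ := hκ1 j
    rcases he with he | he
    · subst he
      rw [abs_le]; constructor <;> linarith
    · subst he
      rw [abs_le]; constructor <;> linarith
  classical
  set s : ℕ → ℝ := fun n => if h : ∃ j, j₁ ≤ j ∧ n ∈ Ioc (b j) (b (j + 1)) then
    κ (Classical.choose h) * ψ (Classical.choose h) n else 0 with hs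
  have hs1 : ∀ j n, j₁ ≤ j → n ∈ Ioc (b j) (b (j + 1)) → s n = κ j * ψ j n := by
    intro j n hj hn
    have h : ∃ j, j₁ ≤ j ∧ n ∈ Ioc (b j) (b (j + 1)) := ⟨j, hj, hn⟩
    have h5 := Classical.choose_spec h
    have h6 : Classical.choose h = j := cell_unique b j₁ hbm h5.1 hj h5.2 hn
    rw [hs]
    simp only
    rw [dif_pos h, h6]
  have hs2 : ∀ n, s n = 0 ∨ ∃ j, j₁ ≤ j ∧ n ∈ Ioc (b j) (b (j + 1)) ∧ s n = κ j * ψ j n := by
    intro n
    by_cases h : ∃ j, j₁ ≤ j ∧ n ∈ Ioc (b j) (b (j + 1))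
    · obtain ⟨j, hj, hn⟩ := h
      exact Or.inr ⟨j, hj, hn, hs1 j n hj hn⟩
    · left
      rw [hs]
      simp only
      rw [dif_neg h]
  have hmono : ∀ j, j₁ ≤ j → b j₁ ≤ b j := by
    intro j hj
    induction j, hj using Nat.le_induction with
    | base => exact le_rfl
    | succ j hj ih => exact ih.trans (hbm j hj).le
  have supp : ∀ n, s n ≠ 0 → n.Prime ∧ b j₁ < n := by
    intro n hn
    rcases hs2 n with h | ⟨j, hj, hnj, h⟩
    · exact absurd h hn
    · have h5 : ψ j n ≠ 0 := by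
        intro h6
        rw [h6, mul_zero] at h
        exact hn h
      refine ⟨?_, lt_of_le_of_lt (hmono j hj) (Finset.mem_Ioc.1 hnj).1⟩
      by_contra h6
      have h7 := (hψ j hj).1 n
      rw [gw, if_neg h6, zero_div] at h7
      exact h5 (abs_eq_zero.1 (le_antisymm h7 (abs_nonneg _)))
  have bd : ∀ n, |s n| ≤ gw n / 2 := by
    intro n
    rcases hs2 n with h | ⟨j, hj, hnj, h⟩
    · rw [h, abs_zero]
      have := gw_nonneg n
      linarith
    · rw [h, abs_mul]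
      calc |κ j| * |ψ j n| ≤ 1 * |ψ j n| := by gcongr; exact hκ2 j
        _ ≤ gw n / 2 := by rw [one_mul]; exact (hψ j hj).1 n
  have part : ∀ j, j₁ ≤ j → ∀ x ≤ b (j + 1), ∀ f : ℕ → ℝ,
      ∑ n ∈ Ioc (b j) x, s n * f n = κ j * ∑ n ∈ Ioc (b j) x, ψ j n * f n := by
    intro j hj x hx f
    rw [Finset.mul_sum]
    refine Finset.sum_congr rfl fun n hn => ?_
    rw [hs1 j n hj (Finset.mem_Ioc.2 ⟨(Finset.mem_Ioc.1 hn).1, (Finset.mem_Ioc.1 hn).2.trans hx⟩)]
    ring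
  have cell : ∀ j, j₁ ≤ j → ∑ n ∈ Ioc (b j) (b (j + 1)), s n = 0 := by
    intro j hj
    have := part j hj _ le_rfl (fun _ => 1)
    simp only [mul_one] at this
    rw [this, (hψ j hj).2.2.1, mul_zero]
  -- moments
  have mom : ∀ g : ℕ, ∀ R : Polynomial ℝ, R.natDegree ≤ 8 * q + 10 →
      ∑ n ∈ Ioc (b (j₁ + (8 * q + 11) * g)) (b (j₁ + (8 * q + 11) * (g + 1))),
        s n * R.eval (vv (2 * q) j₀ n) = 0 := by
    intro g R hR
    have hJ : j₁ ≤ j₁ + (8 * q + 11) * g := Nat.le_add_right _ _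
    have h5 := hc2 g R.derivative (by have := R.natDegree_derivative_le; omega)
    have e : j₁ + (8 * q + 11) * (g + 1) = j₁ + (8 * q + 11) * g + (8 * q + 11) := by ring
    rw [e, sum_cells b (j₁ + (8 * q + 11) * g) (fun i => (hbm _ (by omega)).le)]
    have h6 : ∀ i ∈ range (8 * q + 11),
        ∑ n ∈ Ioc (b (j₁ + (8 * q + 11) * g + i)) (b (j₁ + (8 * q + 11) * g + i + 1)),
          s n * R.eval (vv (2 * q) j₀ n)
        = -(c g i * ∫ u in (vv (2 * q) j₀ (b (j₁ + (8 * q + 11) * g + i)))..(vv (2 * q) j₀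
            (b (j₁ + (8 * q + 11) * g + i + 1))),
          Ps (vv (2 * q) j₀) (b (j₁ + (8 * q + 11) * g + i)) (b (j₁ + (8 * q + 11) * g + i + 1))
            (ψ (j₁ + (8 * q + 11) * g + i)) u * R.derivative.eval u) := by
      intro i hi
      have hi' : i < 8 * q + 11 := Finset.mem_range.1 hi
      have hk : κ (j₁ + (8 * q + 11) * g + i) = c g i := by
        rw [hκ]
        simp only
        have e1 : j₁ + (8 * q + 11) * g + i - j₁ = i + (8 * q + 11) * g := by omega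
        rw [e1, Nat.add_mul_div_left _ _ (by omega), Nat.div_eq_of_lt hi', zero_add,
          Nat.add_mul_mod_self_left, Nat.mod_eq_of_lt hi']
      rw [part _ (by omega) _ le_rfl (fun n => R.eval (vv (2 * q) j₀ n)), hk,
        mom_cell _ hv _ _ _ (hψ _ (by omega)).2.2.1 R]
      ring
    rw [Finset.sum_congr rfl h6, Finset.sum_neg_distrib, h5, neg_zero]
  refine ⟨s, ⟨supp, bd, cell, ?_⟩, ⟨supp, bd, cell, ?_⟩, ?_⟩
  · intro g P hP
    have h5 := mom g (Polynomial.X ^ 4 * P.comp (Polynomial.X ^ 2)) (by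
      refine Polynomial.natDegree_mul_le.trans ?_
      rw [Polynomial.natDegree_X_pow]
      have := Polynomial.natDegree_comp_le (p := P) (q := (Polynomial.X : Polynomial ℝ) ^ 2)
      rw [Polynomial.natDegree_X_pow] at this
      omega)
    rw [← h5]
    refine Finset.sum_congr rfl fun n _ => ?_
    rw [hj₁def, vv_sq]
    simp only [Polynomial.eval_mul, Polynomial.eval_pow, Polynomial.eval_X, Polynomial.eval_comp]
    ring
  · intro g P hP
    have h5 := mom g (Polynomial.X ^ 2 * P) (by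
      refine Polynomial.natDegree_mul_le.trans ?_
      rw [Polynomial.natDegree_X_pow]
      omega)
    rw [← h5]
    refine Finset.sum_congr rfl fun n _ => ?_
    simp only [Polynomial.eval_mul, Polynomial.eval_pow, Polynomial.eval_X]
    ring
  · intro j hj
    obtain ⟨e, he, h5, h6⟩ := hκ1 j
    refine ⟨e, he, fun x x1 x2 => ?_⟩
    have h7 := part j hj x x2 (fun _ => 1)
    simp only [mul_one] at h7
    have h8 := (hψ j hj).2.2.2 x x1 x2
    have h9 : 0 ≤ min (Gs (b j) x) (Gs x (b (j + 1))) := le_min (Gs_nonneg _ _) (Gs_nonneg _ _)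
    rw [h7, ← mul_assoc, mul_assoc c₀]
    exact mul_le_mul h5 h8 (by positivity) (hc₀.le.trans h5)

end Pool.Agent.W573.PX
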